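import Mathlib
import Pool.Agent.Helper12.HofU.GapU

/-!
# Hofstadter's consecutive-sum sequence: gaps

`a_(n+1) - a_n ≤ C a_n^((7 - 2√10)/2 + ε)`, the exponent is `0.3377...`.

Idea of the proof. Given `x = a_(n+1) - 1`, take the least `q` with `S_q ≥ x` and the least `p` with
`S_p ≥ S_q - x`; the term `S_q - S_p` lies in `(x - a_p, x]`, where `S_p ≤ 2 a_q` and `S_q ≤ 4 a_n`. The
lower bound for the counting function from `UpperExponent` and the dyadic monotonicity give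
`a_p ≤ C S_p^σ` for all `σ > (√10 - 2)/2`, which is used twice.
-/

set_option autoImplicit false

namespace Pool.Agent.Results.MP_0b4958_nt.GapExponent

open Pool.Agent.Helper12.Hof Pool.Agent.Helper12.HofU

theorem result (a : ℕ → ℕ) (h1 : a 1 = 1) (h2 : a 2 = 2)
    (h3 : ∀ n : ℕ, 3 ≤ n →
      IsLeast {m : ℕ | a (n - 1) < m ∧
        ∃ i j : ℕ, 1 ≤ i ∧ i < j ∧ j < n ∧ m = ∑ k ∈ Finset.Icc i j, a k} (a n)) :
    ∀ ε : ℝ, 0 < ε → ∃ C : ℝ, 0 < C ∧ ∀ n : ℕ, 1 ≤ n →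
      (a (n + 1) : ℝ) - a n ≤ C * (a n : ℝ) ^ ((7 - 2 * Real.sqrt 10) / 2 + ε) :=
  fun ε hε => gapU (a := a) ⟨h1, h2, h3⟩ ε hε

end Pool.Agent.Results.MP_0b4958_nt.GapExponent
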