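import Mathlib
import Pool.Agent.Helper12.Hof.All

/-!
# Hofstadter's consecutive-sum sequence: `b_n = a_n - n ≥ c log n / log log n`

An exponential improvement of the lower bound `log log n / log 20 - O(1)` (Tang 2026) for
`b_n = a_n - n`.

Idea of the proof. A sum of consecutive terms of the sequence is the sum of an interval of integers
minus the sum of the missing numbers in this interval. Let `m` be a large missing number, let
`q = 2^n` be of size `m (log m)^70`, and consider the numbers `2^(n-1) p` with `p` an odd prime,
`|p - q| ≤ q/(log q)^71`; the prime number theorem with error term `X/(log X)^A`, which is proved from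
scratch, shows that there are at least `c m/(log m)^2` of them. Such a number is not the sum of an
interval of two or more integers `≥ m`. If it is a sum of consecutive terms of the sequence,
the interval either contains no missing number larger than `m` (for each choice of the missing numbers
in it, the interval gives a solution of `xy = c` modulo `2^n` with `x`, `y` of size `m`, and
these solutions are counted by the divisor function in an arithmetic progression with Landreau's
inequality), or contains a missing number larger than `m` (there are few such intervals if the next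
missing number is large). Hence either more than `(log m)^2` numbers up to `m^3` are missing, or
there is a missing number in `(m, m (log m)^220]`.
-/

set_option autoImplicit false

namespace Pool.Agent.Results.MP_0b4958_nt.LogLowerBound

open Pool.Agent.Helper12.Hof

theorem result :
    ∃ c : ℝ, 0 < c ∧ ∀ a : ℕ → ℕ, a 1 = 1 → a 2 = 2 →
      (∀ n : ℕ, 3 ≤ n →
        IsLeast {m : ℕ | a (n - 1) < m ∧
          ∃ i j : ℕ, 1 ≤ i ∧ i < j ∧ j < n ∧ m = ∑ k ∈ Finset.Icc i j, a k} (a n)) →
      ∀ n : ℕ, 4 ≤ n → (n : ℝ) + c * (Real.log n / Real.log (Real.log n)) ≤ a n := by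
  obtain ⟨c, hc, n₁, h⟩ := stFinal
  set n₀ : ℕ := max n₁ 4 with hn₀
  have hl4 : 1 < Real.log 4 := by
    have h2 : (0.6931471803 : ℝ) < Real.log 2 := Real.log_two_gt_d9
    have h4 : Real.log 4 = 2 * Real.log 2 := by
      rw [show (4 : ℝ) = 2 ^ 2 by norm_num, Real.log_pow]
      norm_num
    rw [h4]
    linarith
  have hll4 : 0 < Real.log (Real.log 4) := Real.log_pos hl4
  have hn4 : (4 : ℝ) ≤ (n₀ : ℝ) := by exact_mod_cast le_max_right n₁ 4
  have hln : 1 < Real.log n₀ := lt_of_lt_of_le hl4 (Real.log_le_log (by norm_num) hn4)
  refine ⟨min c (Real.log (Real.log 4) / Real.log n₀), lt_min hc (by positivity), ?_⟩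
  intro a h1 h2 h3 n hn
  have hH : IsHof a := ⟨h1, h2, h3⟩
  have hn' : (4 : ℝ) ≤ (n : ℝ) := by exact_mod_cast hn
  have hlog : Real.log 4 ≤ Real.log n := Real.log_le_log (by norm_num) hn'
  have hloglog : Real.log (Real.log 4) ≤ Real.log (Real.log n) :=
    Real.log_le_log (by linarith) hlog
  have hquot : 0 ≤ Real.log n / Real.log (Real.log n) :=
    div_nonneg (by linarith) (by linarith)
  by_cases hnn : n₁ ≤ n
  · refine le_trans ?_ (h a hH n hnn)
    have := mul_le_mul_of_nonneg_right (min_le_left c (Real.log (Real.log 4) / Real.log n₀)) hquot
    linarith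
  · have hlt : n < n₁ := by omega
    have hle : (n : ℝ) ≤ (n₀ : ℝ) := by exact_mod_cast (hlt.le.trans (le_max_left n₁ 4))
    have hb : (n : ℝ) + 1 ≤ a n := by
      have h5 := small_bound hH n hn
      have h6 : 0 < Real.log (Real.log n) / Real.log 4 := div_pos (by linarith) (by linarith)
      have h7 : (n : ℝ) < a n := by linarith
      have h8 : n < a n := by exact_mod_cast h7
      exact_mod_cast h8
    have hq : Real.log n / Real.log (Real.log n) ≤ Real.log n₀ / Real.log (Real.log 4) :=
      div_le_div₀ (by linarith) (Real.log_le_log (by linarith) hle) hll4 hloglog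
    have h9 : min c (Real.log (Real.log 4) / Real.log n₀) *
        (Real.log n / Real.log (Real.log n)) ≤ 1 := by
      calc min c (Real.log (Real.log 4) / Real.log n₀) * (Real.log n / Real.log (Real.log n))
          ≤ (Real.log (Real.log 4) / Real.log n₀) * (Real.log n₀ / Real.log (Real.log 4)) :=
            mul_le_mul (min_le_right _ _) hq hquot (by positivity)
        _ = 1 := by
            field_simp
    linarith

end Pool.Agent.Results.MP_0b4958_nt.LogLowerBound
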