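import Mathlib
import Pool.Agent.Helper12.HofU.FinalU

/-!
# Hofstadter's consecutive-sum sequence: `a_n ≤ C n^((1 + √10)/3 + ε)`

The exponent `(1 + √10)/3 = 1.3874...` replaces the known exponent `4175/2506 = 1.6660...`.

Idea of the proof (elementary, no incidence theorem). Let `S_n = a_1 + ... + a_n`; all differences
`S_q - S_p`, `p < q`, are terms. Let `q` range over a block of `g^3` consecutive indices in
the range where the terms are about `y`, and let `p ≤ P` with `S_P ≤ g y / 20`. A coincidence
`S_q - S_p = S_q' - S_p'` forces `|q - q'| ≤ g/10`, and for each of the values `m = q' - q` a squeezing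
argument for strictly convex sequences shows that there are at most `5 (P+1) g^2` coincidences. So at least
half of the `g^3 (P+1)` differences are distinct terms. The number of terms in `(y/2, y]`
is comparable, up to a logarithm, to the number of all terms `≤ y` (dyadic monotonicity, from the sums
`a_i + a_(i+1)`), so one can take `g` about `n^(1/3)`, `n` the number of terms `≤ y`. This gives a recursive
inequality for the counting function, which is solved by induction from the exponent `2/5`.
-/

set_option autoImplicit false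

namespace Pool.Agent.Results.MP_0b4958_nt.UpperExponent

open Pool.Agent.Helper12.Hof Pool.Agent.Helper12.HofU

theorem result (a : ℕ → ℕ) (h1 : a 1 = 1) (h2 : a 2 = 2)
    (h3 : ∀ n : ℕ, 3 ≤ n →
      IsLeast {m : ℕ | a (n - 1) < m ∧
        ∃ i j : ℕ, 1 ≤ i ∧ i < j ∧ j < n ∧ m = ∑ k ∈ Finset.Icc i j, a k} (a n)) :
    ∀ ε : ℝ, 0 < ε → ∃ C : ℝ, 0 < C ∧ ∀ n : ℕ, 1 ≤ n →
      (a n : ℝ) ≤ C * (n : ℝ) ^ ((1 + Real.sqrt 10) / 3 + ε) :=
  fun ε hε => finalU (a := a) ⟨h1, h2, h3⟩ ε hε

end Pool.Agent.Results.MP_0b4958_nt.UpperExponent
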